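import Pool.Agent.Helper81_AND2B.MSW
import Pool.Agent.Helper14_HSL.HSC

/-!
# AND2B (helper81): FLX (the dead sites have no effect)
-/

set_option autoImplicit false

open MeasureTheory ProbabilityTheory

open scoped BigOperators NNReal ENNReal Matrix

noncomputable section

namespace Pool.Agent.AND2B.H81

open Pool.Agent.AND2B
open Pool.Agent.Anderson hiding box mem_box card_box
open Pool.Agent.Loc Pool.Agent.Mob Pool.Agent.Helper54.Bal
  Pool.Agent.Helper96.EXP Pool.Agent.BED
open Pool.Agent.LE.MN Pool.Agent.LE.CL Pool.Agent.LE.IR Pool.Agent.LE.QD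

section l2

variable {X : Type} [Fintype X]

/-- the `ℓ²` norm -/
def nn (u : X → ℂ) : ℝ := ‖(WithLp.toLp 2 u : EuclideanSpace ℂ X)‖

theorem nn_sq (u : X → ℂ) : nn u ^ 2 = ∑ x, ‖u x‖ ^ 2 := by
  unfold nn
  rw [EuclideanSpace.norm_eq, Real.sq_sqrt (Finset.sum_nonneg fun x _ => sq_nonneg _)]

theorem nn_nonneg (u : X → ℂ) : 0 ≤ nn u := norm_nonneg _

theorem nn_add (u v : X → ℂ) : nn (fun x => u x + v x) ≤ nn u + nn v := by
  unfold nn
  exact norm_add_le (WithLp.toLp 2 u : EuclideanSpace ℂ X) (WithLp.toLp 2 v)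

theorem nn_smul (c : ℂ) (u : X → ℂ) : nn (fun x => c * u x) = ‖c‖ * nn u := by
  unfold nn
  exact norm_smul c (WithLp.toLp 2 u : EuclideanSpace ℂ X)

theorem nn_mono (u v : X → ℂ) (h : ∀ x, ‖u x‖ ≤ ‖v x‖) : nn u ≤ nn v := by
  have h1 : nn u ^ 2 ≤ nn v ^ 2 := by
    rw [nn_sq, nn_sq]
    exact Finset.sum_le_sum fun x _ => pow_le_pow_left₀ (norm_nonneg _) (h x) 2
  exact abs_le_of_sq_le_sq' h1 (nn_nonneg v) |>.2

/-- Cauchy-Schwarz -/
theorem nn_cs (u v : X → ℂ) : ‖∑ x, (starRingEnd ℂ) (u x) * v x‖ ≤ nn u * nn v := by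
  have h : ∑ x, (starRingEnd ℂ) (u x) * v x =
      inner ℂ (WithLp.toLp 2 u : EuclideanSpace ℂ X) (WithLp.toLp 2 v) := by
    rw [PiLp.inner_apply]
    refine Finset.sum_congr rfl fun x _ => ?_
    simp [mul_comm]
  rw [h]
  exact norm_inner_le_norm _ _

end l2

variable {d M : ℕ} [NeZero M]

theorem adj_mul (u : Tor d M → ℂ) (x : Tor d M) :
    ∑ y, (adj d M x y : ℂ) * u y = ∑ i : Fin d, (u (x + ev i) + u (x - ev i)) := by
  unfold adj
  simp only [Matrix.of_apply, Complex.ofReal_sum, Complex.ofReal_add, Finset.sum_mul, add_mul]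
  rw [Finset.sum_comm]
  refine Finset.sum_congr rfl fun i _ => ?_
  rw [Finset.sum_add_distrib]
  congr 1
  · rw [Finset.sum_eq_single (x + ev i)]
    · simp
    · intro y _ hy
      rw [if_neg hy]; simp
    · intro h; exact absurd (Finset.mem_univ _) h
  · rw [Finset.sum_eq_single (x - ev i)]
    · simp
    · intro y _ hy
      rw [if_neg hy]; simp
    · intro h; exact absurd (Finset.mem_univ _) h

theorem nn_shift (u : Tor d M → ℂ) (a : Tor d M) : nn (fun x => u (x + a)) = nn u := by
  have h : nn (fun x => u (x + a)) ^ 2 = nn u ^ 2 := by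
    rw [nn_sq, nn_sq]
    exact Equiv.sum_comp (Equiv.addRight a) (fun x => ‖u x‖ ^ 2)
  exact (pow_left_inj₀ (nn_nonneg _) (nn_nonneg _) two_ne_zero).1 h

theorem nn_sum {X ι : Type} [Fintype X] (s : Finset ι) (u : ι → X → ℂ) :
    nn (fun x => ∑ i ∈ s, u i x) ≤ ∑ i ∈ s, nn (u i) := by
  classical
  induction s using Finset.induction_on with
  | empty =>
    have : nn (fun x : X => ∑ i ∈ (∅ : Finset ι), u i x) ^ 2 = 0 := by
      rw [nn_sq]; simp
    rw [Finset.sum_empty]
    exact (pow_eq_zero_iff two_ne_zero).1 this |>.le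
  | insert i s hi ih =>
    rw [Finset.sum_insert hi]
    have : (fun x => ∑ j ∈ insert i s, u j x) = fun x => u i x + ∑ j ∈ s, u j x := by
      funext x
      rw [Finset.sum_insert hi]
    rw [this]
    exact (nn_add _ _).trans (by linarith)

theorem nn_adj (u : Tor d M → ℂ) :
    nn (fun x => ∑ y, (adj d M x y : ℂ) * u y) ≤ 2 * d * nn u := by
  have h : (fun x => ∑ y, (adj d M x y : ℂ) * u y) =
      fun x => ∑ i : Fin d, (u (x + ev i) + u (x - ev i)) := by
    funext x
    exact adj_mul u x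
  rw [h]
  refine (nn_sum Finset.univ fun (i : Fin d) x => u (x + ev i) + u (x - ev i)).trans ?_
  have h1 : ∀ i ∈ (Finset.univ : Finset (Fin d)),
      nn (fun x : Tor d M => u (x + ev i) + u (x - ev i)) ≤ 2 * nn u := by
    intro i _
    refine (nn_add (fun x => u (x + ev i)) (fun x => u (x - ev i))).trans ?_
    have h2 := nn_shift u (ev i)
    have h3 := nn_shift u (-ev i)
    simp only [← sub_eq_add_neg] at h3
    rw [h2, h3]
    linarith
  refine (Finset.sum_le_sum h1).trans ?_
  rw [Finset.sum_const, Finset.card_univ, Fintype.card_fin, nsmul_eq_mul]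
  linarith

/-- FLX -/
theorem flx : FlxStmt := by
  classical
  intro d
  refine ⟨4 + (1 + 4 * d) ^ 2, by nlinarith [sq_nonneg (1 + 4 * (d : ℝ))], ?_⟩
  intro M _ V k E L e₀ kv D hL he hLe hkv hkv1 hkD hkA hW
  set C : ℝ := 4 + (1 + 4 * (d : ℝ)) ^ 2 with hC
  have hd0 : (0 : ℝ) ≤ d := Nat.cast_nonneg d
  have hk : ∀ x, 0 < k x := by
    intro x
    by_cases hx : x ∈ D
    · rw [hkD x hx]; exact he
    · exact lt_of_lt_of_le hkv (hkA x hx)
  have hnet : ANR.Net (Hr V E) k := ⟨Hr_sym V E, hk⟩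
  have hunit := Pool.Agent.HSL14.mat_unit hnet
  unfold Pool.Agent.HSL14.mat at hunit
  -- the bound
  have main : ∀ f : Tor d M → ℂ, nn (fun x => ∑ y, res V E k x y * f y) ≤
      C * L ^ 2 / kv * nn f := by
    intro f
    set w : Tor d M → ℂ := fun x => ∑ y, res V E k x y * f y with hw
    -- the equation
    have heq : ∀ x, ∑ y, (Hr V E x y : ℂ) * w y = f x + Complex.I * (k x : ℂ) * w x := by
      have h1 : ((Hr V E).map (fun t : ℝ => (t : ℂ)) -
          Matrix.diagonal fun x => Complex.I * (k x : ℂ)) *ᵥ w = f := by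
        have h2 : w = res V E k *ᵥ f := rfl
        rw [h2, Matrix.mulVec_mulVec]
        unfold res ANR.Gr
        rw [Matrix.mul_nonsing_inv _ hunit, Matrix.one_mulVec]
      intro x
      have h3 := congrFun h1 x
      rw [Matrix.sub_mulVec, Pi.sub_apply, Matrix.mulVec_diagonal] at h3
      have h4 : ((Hr V E).map (fun t : ℝ => (t : ℂ)) *ᵥ w) x =
          ∑ y, (Hr V E x y : ℂ) * w y := rfl
      rw [h4] at h3
      rw [← h3]
      ring
    -- the flux
    have hflux : ∑ x, k x * ‖w x‖ ^ 2 ≤ nn w * nn f := by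
      have hre : (∑ x, (starRingEnd ℂ) (w x) * ∑ y, (Hr V E x y : ℂ) * w y).im = 0 := by
        have hc : (starRingEnd ℂ) (∑ x, (starRingEnd ℂ) (w x) * ∑ y, (Hr V E x y : ℂ) * w y) =
            ∑ x, (starRingEnd ℂ) (w x) * ∑ y, (Hr V E x y : ℂ) * w y := by
          rw [map_sum]
          simp only [map_mul, map_sum, Complex.conj_conj, Complex.conj_ofReal, Finset.mul_sum]
          rw [Finset.sum_comm]
          refine Finset.sum_congr rfl fun x _ => Finset.sum_congr rfl fun y _ => ?_
          rw [Hr_sym V E y x]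
          ring
        exact Complex.conj_eq_iff_im.1 hc
      have h1 : ∑ x, (starRingEnd ℂ) (w x) * ∑ y, (Hr V E x y : ℂ) * w y =
          ∑ x, (starRingEnd ℂ) (w x) * f x + Complex.I * ((∑ x, k x * ‖w x‖ ^ 2 : ℝ) : ℂ) := by
        push_cast
        rw [Finset.mul_sum, ← Finset.sum_add_distrib]
        refine Finset.sum_congr rfl fun x _ => ?_
        rw [heq x]
        have h2 : (starRingEnd ℂ) (w x) * w x = ((‖w x‖ ^ 2 : ℝ) : ℂ) := by
          rw [mul_comm, Complex.mul_conj, Complex.normSq_eq_norm_sq]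
        push_cast at h2
        calc (starRingEnd ℂ) (w x) * (f x + Complex.I * (k x : ℂ) * w x) =
            (starRingEnd ℂ) (w x) * f x + Complex.I * ((k x : ℂ) * ((starRingEnd ℂ) (w x) * w x)) := by
              ring
          _ = _ := by rw [h2]
      have h3 := congrArg Complex.im h1
      rw [hre, Complex.add_im] at h3
      have h4 : (Complex.I * ((∑ x, k x * ‖w x‖ ^ 2 : ℝ) : ℂ)).im = ∑ x, k x * ‖w x‖ ^ 2 := by
        rw [Complex.mul_im, Complex.I_re, Complex.I_im, Complex.ofReal_re, Complex.ofReal_im]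
        ring
      rw [h4] at h3
      have h5 : |(∑ x, (starRingEnd ℂ) (w x) * f x).im| ≤ nn w * nn f :=
        (Complex.abs_im_le_norm _).trans (nn_cs w f)
      have h6 := (abs_le.1 h5).1
      linarith
    -- the two parts
    set wD : Tor d M → ℂ := fun x => if x ∈ D then w x else 0 with hwD
    set wA : Tor d M → ℂ := fun x => if x ∈ D then 0 else w x with hwA
    have hsplit : ∀ x, w x = wD x + wA x := by
      intro x
      rw [hwD, hwA]
      by_cases hx : x ∈ D
      · simp [hx]
      · simp [hx]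
    have hwn : nn w ≤ nn wD + nn wA := by
      have : w = fun x => wD x + wA x := funext hsplit
      calc nn w = nn (fun x => wD x + wA x) := by rw [← this]
        _ ≤ _ := nn_add _ _
    have hA : kv * nn wA ^ 2 ≤ nn w * nn f := by
      refine le_trans ?_ hflux
      rw [nn_sq, Finset.mul_sum]
      refine Finset.sum_le_sum fun x _ => ?_
      rw [hwA]
      by_cases hx : x ∈ D
      · simp only [hx, if_true, norm_zero]
        have := mul_nonneg (hk x).le (sq_nonneg ‖w x‖)
        nlinarith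
      · simp only [hx, if_false]
        exact mul_le_mul_of_nonneg_right (hkA x hx) (sq_nonneg _)
    have hDD : nn wD ≤ L * (nn f + e₀ * nn wD + 2 * d * nn wA) := by
      have h1 := hW wD (fun x hx => by rw [hwD]; simp [hx])
      -- the vector `H_DD w_D`
      set g : Tor d M → ℂ := fun x => if x ∈ D then ∑ y, (Hr V E x y : ℂ) * wD y else 0 with hg
      have e1 : ∑ x ∈ D, ‖wD x‖ ^ 2 = nn wD ^ 2 := by
        rw [nn_sq]
        refine Finset.sum_subset (Finset.subset_univ D) fun x _ hx => ?_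
        rw [hwD]; simp [hx]
      have e2 : ∑ x ∈ D, ‖∑ y, (Hr V E x y : ℂ) * wD y‖ ^ 2 = nn g ^ 2 := by
        rw [nn_sq, ← Finset.sum_subset (Finset.subset_univ D) fun x _ hx => ?_]
        · refine Finset.sum_congr rfl fun x hx => ?_
          rw [hg]; simp [hx]
        · rw [hg]; simp [hx]
      rw [e1, e2, ← mul_pow] at h1
      have h2 : nn wD ≤ L * nn g :=
        abs_le_of_sq_le_sq' h1 (mul_nonneg (by linarith) (nn_nonneg g)) |>.2
      refine h2.trans (mul_le_mul_of_nonneg_left ?_ (by linarith))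
      have h3 : ∀ x, ‖g x‖ ≤ ‖f x + Complex.I * (e₀ : ℂ) * wD x +
          (-1) * ∑ y, (adj d M x y : ℂ) * wA y‖ := by
        intro x
        by_cases hx : x ∈ D
        · have h4 : g x = f x + Complex.I * (e₀ : ℂ) * wD x +
              (-1) * ∑ y, (adj d M x y : ℂ) * wA y := by
            have h5 : ∑ y, (Hr V E x y : ℂ) * wA y = ∑ y, (adj d M x y : ℂ) * wA y := by
              refine Finset.sum_congr rfl fun y _ => ?_
              rw [Hr_apply]
              by_cases hxy : x = y
              · subst hxy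
                have : wA x = 0 := by rw [hwA]; simp [hx]
                rw [this, mul_zero, mul_zero]
              · rw [if_neg hxy, add_zero]
            have h6 : ∑ y, (Hr V E x y : ℂ) * wD y =
                ∑ y, (Hr V E x y : ℂ) * w y - ∑ y, (Hr V E x y : ℂ) * wA y := by
              rw [← Finset.sum_sub_distrib]
              refine Finset.sum_congr rfl fun y _ => ?_
              rw [hsplit y]; ring
            have h7 : g x = ∑ y, (Hr V E x y : ℂ) * wD y := by
              rw [hg]; simp [hx]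
            have h8 : wD x = w x := by rw [hwD]; simp [hx]
            rw [h7, h6, h5, heq x, hkD x hx, h8]
            ring
          rw [h4]
        · have h4 : g x = 0 := by rw [hg]; simp [hx]
          rw [h4, norm_zero]
          exact norm_nonneg _
      refine (nn_mono g _ h3).trans ?_
      refine (nn_add (fun x => f x + Complex.I * (e₀ : ℂ) * wD x)
        (fun x => (-1) * ∑ y, (adj d M x y : ℂ) * wA y)).trans ?_
      have h4 := nn_add f (fun x => Complex.I * (e₀ : ℂ) * wD x)
      have h5 : nn (fun x => Complex.I * (e₀ : ℂ) * wD x) = e₀ * nn wD := by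
        rw [nn_smul, norm_mul, Complex.norm_I, one_mul, Complex.norm_real, Real.norm_of_nonneg he.le]
      have h6 : nn (fun x => (-1) * ∑ y, (adj d M x y : ℂ) * wA y) ≤ 2 * d * nn wA := by
        rw [nn_smul, norm_neg, norm_one, one_mul]
        exact nn_adj wA
      linarith
    -- the conclusion
    have hf0 := nn_nonneg f
    have hw0 := nn_nonneg w
    have hwD0 := nn_nonneg wD
    have hwA0 := nn_nonneg wA
    have h1 : nn wD ≤ 2 * L * (nn f + 2 * d * nn wA) := by
      have : L * (e₀ * nn wD) ≤ 1 / 2 * nn wD := by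
        have := mul_le_mul_of_nonneg_right hLe hwD0
        nlinarith
      nlinarith
    have h2 : nn w ≤ 2 * L * nn f + (1 + 4 * d) * L * nn wA := by
      have : nn wA ≤ L * nn wA := le_mul_of_one_le_left hwA0 hL
      nlinarith
    -- Young
    have h3 : (1 + 4 * d) * L * nn wA ≤ 1 / 2 * nn w + (1 + 4 * d) ^ 2 * L ^ 2 / (2 * kv) * nn f := by
      by_cases hw1 : nn w = 0
      · have : nn wA = 0 := by
          have h4 : kv * nn wA ^ 2 ≤ 0 := by rw [hw1, zero_mul] at hA; exact hA
          have h5 : nn wA ^ 2 ≤ 0 := by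
            by_contra hcon
            rw [not_le] at hcon
            have := mul_pos hkv hcon
            linarith
          exact (pow_eq_zero_iff two_ne_zero).1 (le_antisymm h5 (sq_nonneg _))
        rw [this, mul_zero, hw1, mul_zero, zero_add]
        positivity
      · -- `(c a)² ≤ c² w f / kv ≤ (w/2 + c² f / (2 kv))²`
        set c : ℝ := (1 + 4 * d) * L with hc
        have hc0 : 0 ≤ c := by positivity
        have e1 : (1 + 4 * (d : ℝ)) ^ 2 * L ^ 2 / (2 * kv) * nn f = c ^ 2 * nn f / kv / 2 := by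
          rw [hc]; field_simp
        rw [e1]
        have hY0 : 0 ≤ c ^ 2 * nn f / kv := by positivity
        have h4 : (c * nn wA) ^ 2 ≤ (1 / 2 * nn w + c ^ 2 * nn f / kv / 2) ^ 2 := by
          have h5 : nn wA ^ 2 ≤ nn w * nn f / kv := by
            rw [le_div_iff₀ hkv]; linarith
          have h6 : (c * nn wA) ^ 2 ≤ nn w * (c ^ 2 * nn f / kv) := by
            calc (c * nn wA) ^ 2 = c ^ 2 * nn wA ^ 2 := by ring
              _ ≤ c ^ 2 * (nn w * nn f / kv) := mul_le_mul_of_nonneg_left h5 (sq_nonneg c)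
              _ = _ := by ring
          nlinarith [sq_nonneg (nn w - c ^ 2 * nn f / kv)]
        exact abs_le_of_sq_le_sq' h4 (by positivity) |>.2
    have h4 : nn w ≤ (4 * L + (1 + 4 * d) ^ 2 * L ^ 2 / kv) * nn f := by
      have e : (1 + 4 * (d : ℝ)) ^ 2 * L ^ 2 / (2 * kv) * nn f =
          1 / 2 * ((1 + 4 * (d : ℝ)) ^ 2 * L ^ 2 / kv * nn f) := by
        field_simp
      rw [e] at h3
      linarith
    refine h4.trans (mul_le_mul_of_nonneg_right ?_ hf0)
    have h5 : 4 * L ≤ 4 * L ^ 2 / kv := by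
      rw [le_div_iff₀ hkv]
      have : L * kv ≤ L * L := mul_le_mul_of_nonneg_left (hkv1.trans hL) (by linarith)
      nlinarith
    calc 4 * L + (1 + 4 * (d : ℝ)) ^ 2 * L ^ 2 / kv ≤
        4 * L ^ 2 / kv + (1 + 4 * (d : ℝ)) ^ 2 * L ^ 2 / kv := by linarith
      _ = C * L ^ 2 / kv := by rw [hC]; ring
  have hcon : 0 ≤ C * L ^ 2 / kv := by positivity
  have first : ∀ u : Tor d M → ℂ, ∑ x, ‖∑ y, res V E k x y * u y‖ ^ 2 ≤
      (C * L ^ 2 / kv) ^ 2 * ∑ x, ‖u x‖ ^ 2 := by
    intro u
    have h1 := pow_le_pow_left₀ (nn_nonneg _) (main u) 2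
    rw [mul_pow, nn_sq, nn_sq] at h1
    exact h1
  refine ⟨first, ?_⟩
  intro x
  have h1 := first (Pi.single x 1)
  have e1 : ∑ z, ‖∑ y, res V E k z y * (Pi.single x (1 : ℂ) : Tor d M → ℂ) y‖ ^ 2 =
      ∑ z, ‖res V E k x z‖ ^ 2 := by
    refine Finset.sum_congr rfl fun z _ => ?_
    rw [Finset.sum_eq_single x]
    · rw [Pi.single_eq_same, mul_one]
      unfold res
      rw [Pool.Agent.HSL14.gr_sym (Hr_sym V E) k z x]
    · intro y _ hy
      rw [Pi.single_eq_of_ne hy, mul_zero]
    · intro h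
      exact absurd (Finset.mem_univ x) h
  have e2 : ∑ z, ‖(Pi.single x (1 : ℂ) : Tor d M → ℂ) z‖ ^ 2 = 1 := by
    rw [Finset.sum_eq_single x]
    · rw [Pi.single_eq_same, norm_one, one_pow]
    · intro y _ hy
      rw [Pi.single_eq_of_ne hy, norm_zero]
      ring
    · intro h
      exact absurd (Finset.mem_univ x) h
  rw [e1, e2, mul_one] at h1
  calc ∑ b ∈ D, k b * ‖res V E k x b‖ ^ 2 = e₀ * ∑ b ∈ D, ‖res V E k x b‖ ^ 2 := by
        rw [Finset.mul_sum]
        exact Finset.sum_congr rfl fun b hb => by rw [hkD b hb]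
    _ ≤ e₀ * ∑ b, ‖res V E k x b‖ ^ 2 :=
        mul_le_mul_of_nonneg_left (Finset.sum_le_sum_of_subset_of_nonneg (Finset.subset_univ D)
          fun _ _ _ => sq_nonneg _) he.le
    _ ≤ e₀ * (C * L ^ 2 / kv) ^ 2 := mul_le_mul_of_nonneg_left h1 he.le

end Pool.Agent.AND2B.H81
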