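import Pool.Agent.AND2B.Stmts

/-!
# AND2B (helper81): MSW (measurability of `WL`), WLP (the probability of `WL` tends to one)
-/

set_option autoImplicit false

open MeasureTheory ProbabilityTheory

open scoped BigOperators NNReal ENNReal Matrix

noncomputable section

namespace Pool.Agent.AND2B.H81

open Pool.Agent.AND2B
open Pool.Agent.Anderson hiding box mem_box card_box
open Pool.Agent.Loc Pool.Agent.Mob Pool.Agent.Helper54.Bal
  Pool.Agent.Helper96.EXP Pool.Agent.BED
open Pool.Agent.LE.MN Pool.Agent.LE.CL Pool.Agent.LE.IR Pool.Agent.LE.QD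

variable {d M : ℕ} [NeZero M]

theorem Hr_apply (V : Tor d M → ℝ) (E : ℝ) (x y : Tor d M) :
    Hr V E x y = adj d M x y + if x = y then V x - E else 0 := by
  unfold Hr
  rw [Matrix.add_apply, Matrix.diagonal_apply]

/-- the set of the potentials with `WLD` is closed -/
theorem wld_closed (E L : ℝ) (D : Finset (Tor d M)) :
    IsClosed {U : Tor d M → ℝ | WLD E L U D} := by
  have h : {U : Tor d M → ℝ | WLD E L U D} =
      ⋂ u : Tor d M → ℂ, ⋂ (_ : ∀ x, x ∉ D → u x = 0), {U : Tor d M → ℝ |
        ∑ x ∈ D, ‖u x‖ ^ 2 ≤ L ^ 2 * ∑ x ∈ D, ‖∑ y, (Hr U E x y : ℂ) * u y‖ ^ 2} := by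
    ext U
    simp only [Set.mem_iInter, Set.mem_ofPred_eq, WLD]
  rw [h]
  refine isClosed_iInter fun u => isClosed_iInter fun _ => ?_
  refine isClosed_le continuous_const ?_
  refine continuous_const.mul (continuous_finsetSum _ fun x _ => ?_)
  refine (continuous_norm.comp ?_).pow 2
  refine continuous_finsetSum _ fun y _ => ?_
  refine Continuous.mul ?_ continuous_const
  refine Complex.continuous_ofReal.comp ?_
  have : (fun U : Tor d M → ℝ => Hr U E x y) =
      fun U => adj d M x y + if x = y then U x - E else 0 := by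
    funext U
    exact Hr_apply U E x y
  rw [this]
  split_ifs
  · exact continuous_const.add ((continuous_apply x).sub continuous_const)
  · exact continuous_const

/-- MSW -/
theorem msw : MswStmt := by
  intro d M _ E L
  have h : {U : Tor d M → ℝ | WL E L U} = ⋂ D : Finset (Tor d M), {U | WLD E L U D} := by
    ext U
    simp only [Set.mem_iInter, Set.mem_ofPred_eq, WL]
  rw [h]
  exact (isClosed_iInter fun D => wld_closed E L D).measurableSet

/-! ### null sets -/

/-- a set whose fibres in one direction are null sets is a null set -/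
theorem pi_null {ι : Type} [Fintype ι] [DecidableEq ι] (μ : ι → Measure ℝ)
    [∀ i, SigmaFinite (μ i)] (S : Set (ι → ℝ)) (hS : MeasurableSet S) (i : ι)
    (h : ∀ x : ι → ℝ, μ i {t | Function.update x i t ∈ S} = 0) : Measure.pi μ S = 0 := by
  have hf : Measurable (S.indicator (fun _ => (1 : ℝ≥0∞))) :=
    measurable_const.indicator hS
  have h1 : ∫⁻ x, S.indicator (fun _ => (1 : ℝ≥0∞)) x ∂(Measure.pi μ) = Measure.pi μ S := by
    rw [lintegral_indicator hS]
    simp
  rw [← h1, lintegral_eq_lmarginal_univ (fun _ => 0), lmarginal_erase' _ hf (Finset.mem_univ i)]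
  have h2 : (fun x : ι → ℝ => ∫⁻ t, S.indicator (fun _ => (1 : ℝ≥0∞)) (Function.update x i t)
      ∂(μ i)) = fun _ => 0 := by
    funext x
    have hm : MeasurableSet {t | Function.update x i t ∈ S} :=
      (measurable_update x) hS
    have h3 : (fun t => S.indicator (fun _ => (1 : ℝ≥0∞)) (Function.update x i t)) =
        {t | Function.update x i t ∈ S}.indicator (fun _ => (1 : ℝ≥0∞)) := by
      funext t
      by_cases ht : Function.update x i t ∈ S
      · rw [Set.indicator_of_mem ht, Set.indicator_of_mem (show t ∈ {t | Function.update x i t ∈ S}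
          from ht)]
      · rw [Set.indicator_of_notMem ht, Set.indicator_of_notMem
          (show t ∉ {t | Function.update x i t ∈ S} from ht)]
    rw [h3, lintegral_indicator hm]
    simp [h x]
  rw [h2]
  simp [lmarginal]

/-- the compression of `H - E` to `D` is injective -/
def Inj (E : ℝ) (U : Tor d M → ℝ) (D : Finset (Tor d M)) : Prop :=
  ∀ u : Tor d M → ℂ, (∀ x, x ∉ D → u x = 0) →
    (∀ x ∈ D, ∑ y, (Hr U E x y : ℂ) * u y = 0) → u = 0

theorem wld_mono {E L L' : ℝ} {U : Tor d M → ℝ} {D : Finset (Tor d M)} (hL : 0 ≤ L)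
    (hLL : L ≤ L') (h : WLD E L U D) : WLD E L' U D := by
  intro u hu
  refine (h u hu).trans ?_
  exact mul_le_mul_of_nonneg_right (pow_le_pow_left₀ hL hLL 2)
    (Finset.sum_nonneg fun x _ => sq_nonneg _)

theorem inj_of_wld {E L : ℝ} {U : Tor d M → ℝ} {D : Finset (Tor d M)} (h : WLD E L U D) :
    Inj E U D := by
  intro u hu hz
  have h1 := h u hu
  have h2 : ∑ x ∈ D, ‖∑ y, (Hr U E x y : ℂ) * u y‖ ^ 2 = 0 := by
    refine Finset.sum_eq_zero fun x hx => ?_
    rw [hz x hx, norm_zero]
    ring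
  rw [h2, mul_zero] at h1
  funext x
  by_cases hx : x ∈ D
  · have h3 : ‖u x‖ ^ 2 ≤ 0 :=
      (Finset.single_le_sum (f := fun x => ‖u x‖ ^ 2) (fun x _ => sq_nonneg _) hx).trans h1
    have h4 : ‖u x‖ = 0 := by
      have := le_antisymm h3 (sq_nonneg _)
      exact pow_eq_zero_iff (two_ne_zero) |>.1 this
    exact norm_eq_zero.1 h4
  · exact hu x hx

theorem wld_of_inj {E : ℝ} {U : Tor d M → ℝ} {D : Finset (Tor d M)} (h : Inj E U D) :
    ∃ n : ℕ, WLD E ((n : ℝ) + 1) U D := by
  classical
  -- extension by zero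
  let ext : (D → ℂ) → Tor d M → ℂ := fun u x => if hx : x ∈ D then u ⟨x, hx⟩ else 0
  have hext : ∀ (u : D → ℂ) x, x ∉ D → ext u x = 0 := fun u x hx => dif_neg hx
  let f : (D → ℂ) →ₗ[ℂ] (D → ℂ) :=
    { toFun := fun u x => ∑ y, (Hr U E x y : ℂ) * ext u y
      map_add' := by
        intro u v
        funext x
        show ∑ y, (Hr U E x y : ℂ) * ext (u + v) y = ∑ y, (Hr U E x y : ℂ) * ext u y +
          ∑ y, (Hr U E x y : ℂ) * ext v y
        rw [← Finset.sum_add_distrib]
        refine Finset.sum_congr rfl fun y _ => ?_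
        have : ext (u + v) y = ext u y + ext v y := by
          show (if hx : y ∈ D then (u + v) ⟨y, hx⟩ else 0) = (if hx : y ∈ D then u ⟨y, hx⟩ else 0) +
            (if hx : y ∈ D then v ⟨y, hx⟩ else 0)
          split_ifs
          · rfl
          · rw [add_zero]
        rw [this, mul_add]
      map_smul' := by
        intro c u
        funext x
        show ∑ y, (Hr U E x y : ℂ) * ext (c • u) y = c • ∑ y, (Hr U E x y : ℂ) * ext u y
        rw [Finset.smul_sum]
        refine Finset.sum_congr rfl fun y _ => ?_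
        have : ext (c • u) y = c * ext u y := by
          show (if hx : y ∈ D then (c • u) ⟨y, hx⟩ else 0) =
            c * (if hx : y ∈ D then u ⟨y, hx⟩ else 0)
          split_ifs
          · rfl
          · rw [mul_zero]
        rw [this, smul_eq_mul]
        ring }
  have hker : LinearMap.ker f = ⊥ := by
    rw [LinearMap.ker_eq_bot']
    intro u hu
    have h1 : ext u = 0 := by
      refine h _ (hext u) fun x hx => ?_
      exact congrFun hu ⟨x, hx⟩
    funext x
    have h2 := congrFun h1 (x : Tor d M)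
    have h3 : ext u x = u x := by
      show (if hx : (x : Tor d M) ∈ D then u ⟨x, hx⟩ else 0) = u x
      rw [dif_pos x.2]
    rw [h3] at h2
    exact h2
  obtain ⟨K, hK, hanti⟩ := f.exists_antilipschitzWith hker
  have hbd : ∀ u : D → ℂ, ‖u‖ ≤ K * ‖f u‖ := by
    intro u
    have := hanti.le_mul_dist u 0
    rwa [dist_zero_right, map_zero, dist_zero_right] at this
  obtain ⟨n, hn⟩ := exists_nat_ge (Real.sqrt (D.card * (K : ℝ) ^ 2))
  refine ⟨n, ?_⟩
  intro v hv
  let u : D → ℂ := fun x => v x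
  have hev : ext u = v := by
    funext x
    show (if hx : x ∈ D then v x else 0) = v x
    split_ifs with hx
    · rfl
    · exact (hv x hx).symm
  have hf : ∀ x : D, f u x = ∑ y, (Hr U E x y : ℂ) * v y := by
    intro x
    show ∑ y, (Hr U E x y : ℂ) * ext u y = _
    rw [hev]
  -- the sup norm of `f u`
  have h1 : ‖f u‖ ^ 2 ≤ ∑ x ∈ D, ‖∑ y, (Hr U E x y : ℂ) * v y‖ ^ 2 := by
    have hs : 0 ≤ ∑ x ∈ D, ‖∑ y, (Hr U E x y : ℂ) * v y‖ ^ 2 :=
      Finset.sum_nonneg fun x _ => sq_nonneg _
    have h2 : ‖f u‖ ≤ Real.sqrt (∑ x ∈ D, ‖∑ y, (Hr U E x y : ℂ) * v y‖ ^ 2) := by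
      rw [pi_norm_le_iff_of_nonneg (Real.sqrt_nonneg _)]
      intro x
      rw [hf]
      refine Real.le_sqrt_of_sq_le ?_
      exact Finset.single_le_sum (f := fun x => ‖∑ y, (Hr U E x y : ℂ) * v y‖ ^ 2)
        (fun x _ => sq_nonneg _) x.2
    calc ‖f u‖ ^ 2 ≤ (Real.sqrt (∑ x ∈ D, ‖∑ y, (Hr U E x y : ℂ) * v y‖ ^ 2)) ^ 2 :=
          pow_le_pow_left₀ (norm_nonneg _) h2 2
      _ = _ := Real.sq_sqrt hs
  have h3 : ∀ x ∈ D, ‖v x‖ ^ 2 ≤ (K : ℝ) ^ 2 * ‖f u‖ ^ 2 := by
    intro x hx
    have h4 : ‖v x‖ ≤ ‖u‖ := norm_le_pi_norm u ⟨x, hx⟩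
    have h5 : ‖v x‖ ≤ K * ‖f u‖ := h4.trans (hbd u)
    calc ‖v x‖ ^ 2 ≤ (K * ‖f u‖) ^ 2 := pow_le_pow_left₀ (norm_nonneg _) h5 2
      _ = _ := mul_pow _ _ _
  have h4 : ∑ x ∈ D, ‖v x‖ ^ 2 ≤ D.card * ((K : ℝ) ^ 2 * ‖f u‖ ^ 2) := by
    refine (Finset.sum_le_sum h3).trans ?_
    rw [Finset.sum_const, nsmul_eq_mul]
  have h5 : (D.card : ℝ) * (K : ℝ) ^ 2 ≤ ((n : ℝ) + 1) ^ 2 := by
    have h6 : (0 : ℝ) ≤ D.card * (K : ℝ) ^ 2 := by positivity
    calc (D.card : ℝ) * (K : ℝ) ^ 2 = (Real.sqrt (D.card * (K : ℝ) ^ 2)) ^ 2 :=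
          (Real.sq_sqrt h6).symm
      _ ≤ ((n : ℝ) + 1) ^ 2 :=
          pow_le_pow_left₀ (Real.sqrt_nonneg _) (hn.trans (by linarith)) 2
  calc ∑ x ∈ D, ‖v x‖ ^ 2 ≤ D.card * ((K : ℝ) ^ 2 * ‖f u‖ ^ 2) := h4
    _ = (D.card * (K : ℝ) ^ 2) * ‖f u‖ ^ 2 := by ring
    _ ≤ ((n : ℝ) + 1) ^ 2 * ∑ x ∈ D, ‖∑ y, (Hr U E x y : ℂ) * v y‖ ^ 2 :=
        mul_le_mul h5 h1 (sq_nonneg _) (sq_nonneg _)

theorem inj_meas (E : ℝ) (D : Finset (Tor d M)) :
    MeasurableSet {U : Tor d M → ℝ | Inj E U D} := by
  have h : {U : Tor d M → ℝ | Inj E U D} = ⋃ n : ℕ, {U | WLD E ((n : ℝ) + 1) U D} := by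
    ext U
    simp only [Set.mem_iUnion, Set.mem_ofPred_eq]
    exact ⟨wld_of_inj, fun ⟨n, hn⟩ => inj_of_wld hn⟩
  rw [h]
  exact MeasurableSet.iUnion fun n => (wld_closed E _ D).measurableSet

theorem adj_sym (x y : Tor d M) : adj d M x y = adj d M y x := by
  unfold adj
  rw [Matrix.of_apply, Matrix.of_apply]
  refine Finset.sum_congr rfl fun i _ => ?_
  have h1 : (y = x + ev i) ↔ (x = y - ev i) := by
    constructor
    · rintro rfl; abel
    · rintro rfl; abel
  have h2 : (y = x - ev i) ↔ (x = y + ev i) := by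
    constructor
    · rintro rfl; abel
    · rintro rfl; abel
  simp only [h1, h2]
  ring

theorem Hr_sym (V : Tor d M → ℝ) (E : ℝ) (x y : Tor d M) : Hr V E x y = Hr V E y x := by
  rw [Hr_apply, Hr_apply, adj_sym]
  by_cases h : x = y
  · subst h; rfl
  · rw [if_neg h, if_neg (Ne.symm h)]

/-- for almost all potentials the compression is injective -/
theorem inj_ae (E : ℝ) (v : ℝ≥0) (hv : v ≠ 0) (D : Finset (Tor d M)) :
    gau d M v {U | ¬ Inj E U D} = 0 := by
  classical
  induction D using Finset.induction_on with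
  | empty =>
    have : {U : Tor d M → ℝ | ¬ Inj E U ∅} = ∅ := by
      ext U
      simp only [Set.mem_ofPred_eq, Set.mem_empty_iff_false, iff_false, not_not]
      intro u hu _
      funext x
      exact hu x (Finset.notMem_empty x)
    rw [this, measure_empty]
  | insert p D hp ih =>
    let S : Set (Tor d M → ℝ) := {U | ¬ Inj E U (insert p D)} ∩ {U | Inj E U D}
    have hsub : {U : Tor d M → ℝ | ¬ Inj E U (insert p D)} ⊆ {U | ¬ Inj E U D} ∪ S := by
      intro U hU
      by_cases h : Inj E U D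
      · exact Or.inr ⟨hU, h⟩
      · exact Or.inl h
    have hSm : MeasurableSet S := (inj_meas E (insert p D)).compl.inter (inj_meas E D)
    have hS0 : gau d M v S = 0 := by
      have := nullSingletonClass_gaussianReal (μ := 0) hv
      unfold gau
      refine pi_null _ S hSm p fun U => ?_
      refine Set.Subsingleton.measure_zero ?_ _
      intro t ht t' ht'
      -- two values give two kernel vectors
      obtain ⟨hn, hi⟩ := ht
      obtain ⟨hn', -⟩ := ht'
      simp only [Set.mem_ofPred_eq, Inj, not_forall] at hn hn'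
      obtain ⟨u, hu, hz, hu0⟩ := hn
      obtain ⟨u', hu', hz', hu0'⟩ := hn'
      by_contra htt
      set U1 := Function.update U p t with hU1
      set U2 := Function.update U p t' with hU2
      have hHr : ∀ x y, x ≠ p → Hr U1 E x y = Hr U2 E x y := by
        intro x y hx
        rw [Hr_apply, Hr_apply, hU1, hU2, Function.update_of_ne hx, Function.update_of_ne hx]
      have hHp : ∀ y, Hr U1 E p y - Hr U2 E p y = if p = y then t - t' else 0 := by
        intro y
        rw [Hr_apply, Hr_apply, hU1, hU2, Function.update_self, Function.update_self]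
        split_ifs <;> ring
      -- `u p ≠ 0`
      have hnz : ∀ w : Tor d M → ℂ, (∀ x, x ∉ insert p D → w x = 0) →
          (∀ x ∈ D, ∑ y, (Hr U1 E x y : ℂ) * w y = 0) → w ≠ 0 → w p ≠ 0 := by
        intro w hw hwz hw0 hwp
        apply hw0
        refine hi w (fun x hx => ?_) hwz
        by_cases hxp : x = p
        · rw [hxp, hwp]
        · exact hw x (by rw [Finset.mem_insert]; tauto)
      have hup : u p ≠ 0 := hnz u hu (fun x hx => hz x (Finset.mem_insert_of_mem hx)) hu0
      have hup' : u' p ≠ 0 := by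
        refine hnz u' hu' (fun x hx => ?_) hu0'
        have hxp : x ≠ p := by rintro rfl; exact hp hx
        have := hz' x (Finset.mem_insert_of_mem hx)
        rw [← this]
        exact Finset.sum_congr rfl fun y _ => by rw [hHr x y hxp]
      -- the two bilinear forms
      have e1 : ∑ x, u' x * ∑ y, (Hr U1 E x y : ℂ) * u y = 0 := by
        refine Finset.sum_eq_zero fun x _ => ?_
        by_cases hx : x ∈ insert p D
        · rw [hz x hx, mul_zero]
        · rw [hu' x hx, zero_mul]
      have e2 : ∑ x, u x * ∑ y, (Hr U2 E x y : ℂ) * u' y = 0 := by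
        refine Finset.sum_eq_zero fun x _ => ?_
        by_cases hx : x ∈ insert p D
        · rw [hz' x hx, mul_zero]
        · rw [hu x hx, zero_mul]
      have e3 : ∑ x, u x * ∑ y, (Hr U2 E x y : ℂ) * u' y =
          ∑ x, u' x * ∑ y, (Hr U2 E x y : ℂ) * u y := by
        simp only [Finset.mul_sum]
        rw [Finset.sum_comm]
        refine Finset.sum_congr rfl fun x _ => Finset.sum_congr rfl fun y _ => ?_
        rw [Hr_sym U2 E y x]
        ring
      have e4 : ∑ x, u' x * ∑ y, (Hr U1 E x y : ℂ) * u y -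
          ∑ x, u' x * ∑ y, (Hr U2 E x y : ℂ) * u y = ((t - t' : ℝ) : ℂ) * (u p * u' p) := by
        rw [← Finset.sum_sub_distrib, Finset.sum_eq_single p]
        · rw [← mul_sub, ← Finset.sum_sub_distrib, Finset.sum_eq_single p]
          · rw [← sub_mul, ← Complex.ofReal_sub, hHp, if_pos rfl]
            ring
          · intro y _ hy
            rw [← sub_mul, ← Complex.ofReal_sub, hHp, if_neg (Ne.symm hy)]
            simp
          · intro h
            exact absurd (Finset.mem_univ p) h
        · intro x _ hx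
          rw [← mul_sub, ← Finset.sum_sub_distrib]
          rw [Finset.sum_eq_zero fun y _ => ?_, mul_zero]
          rw [hHr x y hx, sub_self]
        · intro h
          exact absurd (Finset.mem_univ p) h
      rw [e1, ← e3, e2, sub_zero] at e4
      have h5 : ((t - t' : ℝ) : ℂ) ≠ 0 := by
        rw [Ne, Complex.ofReal_eq_zero, sub_eq_zero]
        exact htt
      exact (mul_ne_zero h5 (mul_ne_zero hup hup')) e4.symm
    exact measure_mono_null hsub (measure_union_null ih hS0)

/-- WLP -/
theorem wlp : WlpStmt := by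
  classical
  intro d M _ E δ v hv hδ
  have hprob : IsProbabilityMeasure (gau d M v) := by unfold gau; infer_instance
  let S : ℕ → Set (Tor d M → ℝ) := fun n => {U | ¬ WL E ((n : ℝ) + 1) U}
  have hSm : ∀ n, MeasurableSet (S n) := fun n => (msw d M E ((n : ℝ) + 1)).compl
  have hanti : Antitone S := by
    intro m n hmn U hU hW
    refine hU fun D => wld_mono (by positivity) ?_ (hW D)
    have : (m : ℝ) ≤ n := by exact_mod_cast hmn
    linarith
  have hnull : gau d M v (⋂ n, S n) = 0 := by
    have hsub : (⋂ n, S n) ⊆ ⋃ D : Finset (Tor d M), {U | ¬ Inj E U D} := by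
      intro U hU
      rw [Set.mem_iInter] at hU
      by_contra hcon
      simp only [Set.mem_iUnion, Set.mem_ofPred_eq, not_exists, not_not] at hcon
      choose n hn using fun D => wld_of_inj (hcon D)
      refine hU (∑ D : Finset (Tor d M), n D) fun D => ?_
      refine wld_mono (by positivity) ?_ (hn D)
      have h1 : n D ≤ ∑ D : Finset (Tor d M), n D :=
        Finset.single_le_sum (fun _ _ => Nat.zero_le _) (Finset.mem_univ D)
      have h2 : (n D : ℝ) ≤ ((∑ D : Finset (Tor d M), n D : ℕ) : ℝ) := by exact_mod_cast h1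
      linarith
    refine measure_mono_null hsub ?_
    rw [measure_iUnion_null_iff]
    exact fun D => inj_ae E v hv D
  have hlim := tendsto_measure_iInter_atTop (μ := gau d M v) (s := S)
    (fun n => (hSm n).nullMeasurableSet) hanti ⟨0, measure_ne_top _ _⟩
  rw [hnull] at hlim
  have hpos : (0 : ℝ≥0∞) < ENNReal.ofReal δ := ENNReal.ofReal_pos.2 hδ
  obtain ⟨n, hn⟩ := (hlim.eventually_lt_const hpos).exists
  exact ⟨(n : ℝ) + 1, by linarith [Nat.cast_nonneg (α := ℝ) n], hn.le⟩

end Pool.Agent.AND2B.H81
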